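import Pool.Agent.Helper32.CN.UB
import Pool.Agent.Helper36.CauchyN.Final

/-!
# Curves on which Cauchy integrals of measures lie in the Nevanlinna class

Answer to Q1 of `MP_a367a0_an`: a closed rectifiable Jordan curve `Γ` has property (N) if and only
if, for a conformal map `φ` of the unit disc onto `Int Γ`, the radial maximal function of
`log⁺ (1 / |φ'|)` is integrable on the circle.
-/

set_option autoImplicit false

open MeasureTheory Set Metric
open scoped Real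

namespace Pool.Agent.Results.MP_a367a0_an.CauchyNevanlinna

/-- `Γ` is a closed rectifiable Jordan curve: the image of a continuous closed path
`γ : [0, 1] → ℂ` that is injective on `[0, 1)` and has finite length. -/
def IsRectifiableJordanCurve (Γ : Set ℂ) : Prop :=
  ∃ γ : ℝ → ℂ, ContinuousOn γ (Icc 0 1) ∧ InjOn γ (Ico 0 1) ∧ γ 0 = γ 1 ∧
    eVariationOn γ (Icc 0 1) ≠ ⊤ ∧ Γ = γ '' Icc 0 1

/-- `Int Γ`: the points of `ℂ ∖ Γ` whose component in `ℂ ∖ Γ` is bounded. (For a Jordan curve,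
this is the unique bounded component of `ℂ ∖ Γ`.) -/
def interiorOf (Γ : Set ℂ) : Set ℂ :=
  {z | z ∉ Γ ∧ Bornology.IsBounded (connectedComponentIn Γᶜ z)}

/-- The Cauchy integral `Kμ(z) = (2πi)⁻¹ ∫_Γ dμ(ζ) / (ζ - z)` of a complex measure `μ` on `Γ`. -/
noncomputable def cauchyIntegral (Γ : Set ℂ) (μ : ComplexMeasure Γ) (z : ℂ) : ℂ :=
  (2 * π * Complex.I)⁻¹ *
    VectorMeasure.integral μ (fun ζ : Γ => ((ζ : ℂ) - z)⁻¹) (ContinuousLinearMap.mul ℝ ℂ)

/-- The Nevanlinna class of `Ω`: functions `F` holomorphic in `Ω` with `F = g / h`, where `g, h` are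
bounded and holomorphic in `Ω` and `h ≢ 0` on `Ω`. -/
def nevanlinnaClass (Ω : Set ℂ) : Set (ℂ → ℂ) :=
  {F | DifferentiableOn ℂ F Ω ∧ ∃ g h : ℂ → ℂ, DifferentiableOn ℂ g Ω ∧ DifferentiableOn ℂ h Ω ∧
    (∃ M : ℝ, ∀ z ∈ Ω, ‖g z‖ ≤ M ∧ ‖h z‖ ≤ M) ∧ (∃ z ∈ Ω, h z ≠ 0) ∧
    ∀ z ∈ Ω, F z * h z = g z}

/-- Property (N): the Cauchy integral of every finite complex Borel measure on `Γ` is in the
Nevanlinna class of `Int Γ`. -/
def PropertyN (Γ : Set ℂ) : Prop :=
  ∀ μ : ComplexMeasure Γ, cauchyIntegral Γ μ ∈ nevanlinnaClass (interiorOf Γ)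

/-- `φ` is a conformal map of the unit disc onto `Ω`. -/
def IsConformalOnto (φ : ℂ → ℂ) (Ω : Set ℂ) : Prop :=
  DifferentiableOn ℂ φ (ball 0 1) ∧ InjOn φ (ball 0 1) ∧ φ '' ball 0 1 = Ω

/-- **Characterization of property (N).** For a closed rectifiable Jordan curve `Γ` and a conformal
map `φ` of the unit disc onto `Int Γ`: `Γ` has property (N) if and only if
`∫₀^{2π} sup_{0 ≤ r < 1} log⁺ (1 / |φ'(r e^{iθ})|) dθ < ∞`. -/
theorem result (Γ : Set ℂ) (hΓ : IsRectifiableJordanCurve Γ) (φ : ℂ → ℂ)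
    (hφ : IsConformalOnto φ (interiorOf Γ)) :
    PropertyN Γ ↔
      ∫⁻ θ in Ico (0 : ℝ) (2 * π), ⨆ r ∈ Ico (0 : ℝ) 1,
        ENNReal.ofReal (Real.posLog (1 / ‖deriv φ (r * Complex.exp (θ * Complex.I))‖)) < ⊤ := by
  obtain ⟨γ, hγc, hγi, hγ01, hlen, rfl⟩ := hΓ
  obtain ⟨hd, hinj, himg⟩ := hφ
  set Γ := γ '' Icc 0 1 with hΓ
  have hcomp : IsCompact Γ := isCompact_Icc.image_of_continuousOn hγc
  have hne : Γ.Nonempty := ⟨γ 0, mem_image_of_mem γ (by simp)⟩
  have hdisj : Disjoint (φ '' ball 0 1) Γ := by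
    rw [himg, Set.disjoint_left]
    exact fun z hz => hz.1
  have hfr : frontier (φ '' ball 0 1) ⊆ Γ := by
    rw [himg]
    exact Pool.Agent.Helper36.CN.frontier_bounded_subset hcomp.isClosed
  have hbd : Bornology.IsBounded (φ '' ball 0 1) := by
    have h0 : φ 0 ∈ φ '' ball 0 1 := mem_image_of_mem φ (by simp)
    have hpre : IsPreconnected (φ '' ball 0 1) :=
      ((convex_ball (0 : ℂ) 1).isPreconnected).image φ hd.continuousOn
    have hsub : φ '' ball 0 1 ⊆ Γᶜ := fun z hz => Set.disjoint_left.1 hdisj hz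
    have h1 : φ 0 ∈ interiorOf Γ := himg ▸ h0
    exact h1.2.subset (hpre.subset_connectedComponentIn h0 hsub)
  have hmain := Pool.Agent.Helper36.CN.characterization_of_atoms hcomp hne hd hinj hdisj hfr
    (Pool.Agent.Helper32.CN.ub_atoms hd hinj hbd γ hγc hlen hΓ hdisj hfr)
  have hof : ∀ x : ℝ, ENNReal.ofReal (Real.posLog x) = ENNReal.ofReal (Real.log x) := by
    intro x
    rw [Real.posLog_apply, ENNReal.ofReal_max, ENNReal.ofReal_zero]
    exact max_eq_right bot_le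
  simp only [hof, one_div]
  rw [← hmain, himg]
  have hpi : (2 * π * Complex.I : ℂ) ≠ 0 := Complex.two_pi_I_ne_zero
  constructor
  · intro hN μ
    obtain ⟨-, g, h, hg, hh, ⟨M, hM⟩, hz, heq⟩ := hN μ
    refine ⟨fun z => (2 * π * Complex.I) * g z, h, hg.const_mul _, hh,
      ⟨max (‖(2 * π * Complex.I : ℂ)‖ * M) M, fun z hz => ⟨?_, ?_⟩⟩, hz, fun z hz => ?_⟩
    · rw [norm_mul]
      exact (mul_le_mul_of_nonneg_left (hM z hz).1 (norm_nonneg _)).trans (le_max_left _ _)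
    · exact (hM z hz).2.trans (le_max_right _ _)
    · have h1 := heq z hz
      simp only [cauchyIntegral] at h1
      simp only [← h1]
      field_simp
  · intro hN μ
    obtain ⟨g, h, hg, hh, ⟨M, hM⟩, hz, heq⟩ := hN μ
    refine ⟨?_, fun z => (2 * π * Complex.I)⁻¹ * g z, h, hg.const_mul _, hh,
      ⟨max (‖(2 * π * Complex.I : ℂ)⁻¹‖ * M) M, fun z hz => ⟨?_, ?_⟩⟩, hz, fun z hz => ?_⟩
    · refine DifferentiableOn.const_mul ?_ _
      exact (Pool.Agent.Helper36.CN.differentiableOn_cauchy hcomp μ).mono fun z hz => hz.1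
    · rw [norm_mul]
      exact (mul_le_mul_of_nonneg_left (hM z hz).1 (norm_nonneg _)).trans (le_max_left _ _)
    · exact (hM z hz).2.trans (le_max_right _ _)
    · simp only [← heq z hz, cauchyIntegral, mul_assoc]

end Pool.Agent.Results.MP_a367a0_an.CauchyNevanlinna
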